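import Pool.Agent.Q150.CrumA

/-!
# A twisted curve without neighbourly Voronoi families
-/

namespace Pool.Agent.Results.MP_5b0acc_co.SphericalTwistedCurve

open Q150.Crum MeasureTheory

/-- There is a twisted curve `Γ` such that for every subset `S` of `Γ` with at least five points
(in particular for every infinite `S`) there are two distinct points of `S` whose closed Voronoi
regions meet in a set of zero area (two-dimensional Hausdorff measure). -/
theorem result : ∃ Γ : Set E3, IsTwistedCurve Γ ∧ ∀ S ⊆ Γ, 5 ≤ S.encard →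
    ∃ x ∈ S, ∃ x' ∈ S, x ≠ x' ∧
      μH[2] (closure (voronoi S x) ∩ closure (voronoi S x')) = 0 := by
  obtain ⟨Γ, hΓ, h⟩ := main
  refine ⟨Γ, hΓ, fun S hS hc => ?_⟩
  obtain ⟨x, hx, x', hx', hne, -, h0⟩ := h S hS hc
  exact ⟨x, hx, x', hx', hne, h0⟩

end Pool.Agent.Results.MP_5b0acc_co.SphericalTwistedCurve
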